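import Pool.Agent.W880.GY.A2
import Pool.Agent.W880.GY.A3
import Pool.Agent.W880.GY.AD
import Pool.Agent.W880.GY.AD1
import Pool.Agent.W880.GY.AO
import Pool.Agent.W880.GY.BASE
import Pool.Agent.W880.GY.BL
import Pool.Agent.W880.GY.BOOT
import Pool.Agent.W880.GY.CJ
import Pool.Agent.W880.GY.CS
import Pool.Agent.W880.GY.DER
import Pool.Agent.W880.GY.DEXP
import Pool.Agent.W880.GY.FD
import Pool.Agent.W880.GY.GL
import Pool.Agent.W880.GY.H2
import Pool.Agent.W880.GY.IC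
import Pool.Agent.W880.GY.KEY
import Pool.Agent.W880.GY.LE
import Pool.Agent.W880.GY.LEFT
import Pool.Agent.W880.GY.MUL
import Pool.Agent.W880.GY.N1
import Pool.Agent.W880.GY.N2
import Pool.Agent.W880.GY.ONEP
import Pool.Agent.W880.GY.PHI
import Pool.Agent.W880.GY.PROD
import Pool.Agent.W880.GY.SJ
import Pool.Agent.W880.GY.T1
import Pool.Agent.W880.GY.T2
import Pool.Agent.W880.GY.TC
import Pool.Agent.W880.GY.VS
import Pool.Agent.W880.GY.ad

/-!
Part 1 of the Gleason-Yamabe theorem: a locally compact Hausdorff group with a Gleason norm has a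
Lie chart (assembly of the parts of W880).
-/

namespace Pool.Agent.W660.GY

open Pool.Agent.W660.FL Pool.Agent.W880.GY

theorem gy1x : GY1 := by
  have hBASE : S_BASE := t_BASE
  have hCJ : S_CJ := t_CJ
  have hA2 : S_A2 := t_A2 hCJ
  have hA3 : S_A3 := t_A3 hA2
  have hGL : S_GL := t_GL hBASE
  have hN1 : S_N1 := t_N1 hBASE
  have hN2 : S_N2 := t_N2 hBASE hN1
  have hT1 : S_T1 := t_T1 hBASE hA3 hN1
  have hT2 : S_T2 := t_T2 hBASE hA2 hGL hN2
  have hTC : S_TC := t_TC hBASE hCJ hN1 hT1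
  have hVS : S_VS := t_VS hBASE hN2 hT1 hT2 hTC
  have hLE : S_LE := t_LE hBASE hN2 hT1 hT2
  have hBL : S_BL := t_BL hBASE hCJ hA3 hN2
  have hFD : S_FD := t_FD hBASE hN2 hBL
  have hSJ : S_SJ := t_SJ hBASE hGL hA3 hN2 hLE hBL hFD
  have hCS : S_CS := t_CS hBASE hN2 hLE hBL hSJ
  have hKEY : S_KEY := t_KEY
  have hAD1 : S_AD1 := t_AD1 hKEY
  have hAD : S_AD := t_AD hAD1
  have hAO : S_AO := t_AO hKEY
  have had : S_ad := t_ad t_ONEP hAO
  have hDEXP : S_DEXP := t_DEXP t_PROD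
  have hLEFT : S_LEFT := t_LEFT hDEXP
  have hDER : S_DER := t_DER hDEXP hLEFT
  have hMUL : S_MUL := t_MUL hDER hLEFT t_BOOT
  have hH2 : S_H2 := t_H2 hAD had t_PHI hMUL t_IC
  exact gy1_aux hVS hFD hCS hH2

end Pool.Agent.W660.GY
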