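import Pool.Agent.W922.GY2.Asm
import Pool.Agent.W922.GY2.Comm
import Pool.Agent.W922.GY2.Conv
import Pool.Agent.W922.GY2.Easy
import Pool.Agent.W922.GY2.Uc
import Pool.Agent.W922.GY2.Lemb
import Pool.Agent.W922.GY2.Esc2
import Pool.Agent.W922.GY2.Top
import Pool.Agent.W922.GY2.Nu
import Pool.Agent.W207.GY2.Key
import Pool.Agent.W330.GY2.PSI

/-!
Part 2 of the Gleason-Yamabe theorem: a locally compact Hausdorff group without small subgroups
has a Gleason norm.
-/

namespace Pool.Agent.W660.GY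

open Pool.Agent.W922.GY2

theorem gy2 : GY2 := by
  have hcpt := Top.cpt
  have hesc := Top.escp
  have hlemb := Lemb.lemb hcpt Uc.uc Nu.eta Pool.Agent.W330.GY2.psi Conv.cvb Conv.cvd Easy.tay
  have hkey := Pool.Agent.W207.GY2.key hcpt hesc Easy.scale Easy.iter hlemb
  have hbas := Top.basis hcpt hesc
  exact asm Top.setup hkey (Nu.nu' hesc) hbas (Esc2.escape hcpt hesc)
    (Comm.comm hcpt hesc hbas (Uc.conj hcpt hesc) (Uc.bump hbas) Conv.pos Conv.cvb Conv.cvd)

end Pool.Agent.W660.GY
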