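import Pool.Agent.W660.GY.Part3.Fin
import Pool.Agent.W660.GY.Part3.UC
import Pool.Agent.W660.GY.Part3.PWL
import Pool.Agent.W660.GY.Part3.VDT
import Pool.Agent.W638.GY3LIMb
import Pool.Agent.W638.GY3TASMb
import Pool.Agent.W638.GY3GASMb
import Pool.Agent.W638.GY3VDRb
import Pool.Agent.W638.GY3PHIb
import Pool.Agent.W638.GY3TELb
import Pool.Agent.W638.GY3PSIb

/-!
Gleason-Yamabe theorem, part 3: every locally compact group has an open subgroup with arbitrarily
small compact normal subgroups such that the quotients have no small subgroups.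
-/

namespace Pool.Agent.W660.GY

open P3

theorem gy3 : GY3 := by
  have glem : S_GLEM := P3.GASMb.gasm P3.uc P3.PSIb.psi P3.PHIb.phi P3.TELb.tel
  have pwg : S_PWG := P3.TELb.pwlg P3.pwl
  have trap : S_TRAP :=
    P3.TASMb.tasm glem P3.LIMb.lcl P3.LIMb.lsub P3.LIMb.lcov P3.TELb.lgrp P3.TELb.lstep pwg
  have locn : S_LOCN := P3.TELb.casm trap pwg
  have vd : S_VD := P3.VDRb.vdr P3.vdt
  exact P3.gy3_of vd locn P3.LIMb.core

end Pool.Agent.W660.GY
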