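import Pool.Agent.W660.FL.Stm

/-!
The Gleason-Yamabe theorem: interface.
-/

namespace Pool.Agent.W660.GY

open Pool.Agent.W660.FL
open Filter Topology
open scoped Manifold ContDiff

/-- no small subgroups -/
def NSS (G : Type) [Group G] [TopologicalSpace G] : Prop :=
  ∃ U ∈ 𝓝 (1 : G), ∀ S : Subgroup G, (S : Set G) ⊆ U → S = ⊥

/-- Gleason norm: `ν g = d (g, 1)` for a left invariant Gleason metric `d` -/
structure IsGleason {G : Type} [Group G] [TopologicalSpace G] (ν : G → ℝ) : Prop where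
  one : ν 1 = 0
  pos : ∀ g, g ≠ 1 → 0 < ν g
  inv : ∀ g, ν g⁻¹ = ν g
  mul : ∀ g h, ν (g * h) ≤ ν g + ν h
  basis : (𝓝 (1 : G)).HasBasis (fun ε : ℝ => 0 < ε) (fun ε => {g | ν g < ε})
  escape : ∃ C > 0, ∀ (g : G) (n : ℕ), n * ν g ≤ 1 / C → n * ν g ≤ C * ν (g ^ n)
  comm : ∃ C > 0, ∀ g h, ν g ≤ 1 / C → ν h ≤ 1 / C → ν (g * h * g⁻¹ * h⁻¹) ≤ C * ν g * ν h

/-- `Q` has a Lie chart -/
def HasChart (Q : Type) [Group Q] [TopologicalSpace Q] : Prop :=
  ∃ (E : Type) (_ : NormedAddCommGroup E) (_ : NormedSpace ℝ E),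
    FiniteDimensional ℝ E ∧ Nonempty (LieChart Q E)

/-- Gleason metrics give Lie groups -/
def GY1 : Prop := ∀ (G : Type) [Group G] [TopologicalSpace G] [IsTopologicalGroup G] [T2Space G]
  [LocallyCompactSpace G] (ν : G → ℝ), IsGleason ν → HasChart G

/-- locally compact groups without small subgroups have Gleason metrics -/
def GY2 : Prop := ∀ (G : Type) [Group G] [TopologicalSpace G] [IsTopologicalGroup G] [T2Space G]
  [LocallyCompactSpace G], NSS G → ∃ ν : G → ℝ, IsGleason ν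

/-- reduction to groups without small subgroups -/
def GY3 : Prop := ∀ (G : Type) [Group G] [TopologicalSpace G] [IsTopologicalGroup G] [T2Space G]
  [LocallyCompactSpace G], ∃ H : Subgroup G, IsOpen (H : Set G) ∧ ∀ V ∈ 𝓝 (1 : H),
  ∃ (N : Subgroup H) (_ : N.Normal), IsCompact (N : Set H) ∧ (N : Set H) ⊆ V ∧ NSS (H ⧸ N)

end Pool.Agent.W660.GY
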