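import Pool.Agent.W880.GY.H2
import Pool.Agent.W880.GY.BASE
import Pool.Agent.W880.GY.CJ
import Pool.Agent.W880.GY.A2
import Pool.Agent.W880.GY.A3
import Pool.Agent.W880.GY.GL
import Pool.Agent.W880.GY.N1
import Pool.Agent.W880.GY.N2
import Pool.Agent.W880.GY.T1
import Pool.Agent.W880.GY.T2
import Pool.Agent.W880.GY.TC
import Pool.Agent.W880.GY.VS
import Pool.Agent.W880.GY.LE
import Pool.Agent.W880.GY.BL
import Pool.Agent.W880.GY.FD
import Pool.Agent.W880.GY.SJ
import Pool.Agent.W880.GY.CS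
import Pool.Agent.W880.GY.KEY
import Pool.Agent.W880.GY.AD1
import Pool.Agent.W880.GY.AD
import Pool.Agent.W880.GY.AO
import Pool.Agent.W880.GY.ONEP
import Pool.Agent.W880.GY.ad
import Pool.Agent.W880.GY.PHI
import Pool.Agent.W880.GY.PROD
import Pool.Agent.W880.GY.DEXP
import Pool.Agent.W880.GY.LEFT
import Pool.Agent.W880.GY.DER
import Pool.Agent.W880.GY.BOOT
import Pool.Agent.W880.GY.MUL
import Pool.Agent.W880.GY.IC

/-!
Part 1 of the Gleason-Yamabe theorem: a locally compact group with a Gleason norm has a Lie chart.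
-/

set_option autoImplicit false

namespace Pool.Agent.W660.GY

open Pool.Agent.W880.GY

theorem gy1 : GY1 := by
  have a2 : S_A2 := t_A2 t_CJ
  have a3 : S_A3 := t_A3 a2
  have gl : S_GL := t_GL t_BASE
  have n1 : S_N1 := t_N1 t_BASE
  have n2 : S_N2 := t_N2 t_BASE n1
  have t1 : S_T1 := t_T1 t_BASE a3 n1
  have t2 : S_T2 := t_T2 t_BASE a2 gl n2
  have tc : S_TC := t_TC t_BASE t_CJ n1 t1
  have vs : S_VS := t_VS t_BASE n2 t1 t2 tc
  have le : S_LE := t_LE t_BASE n2 t1 t2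
  have bl : S_BL := t_BL t_BASE t_CJ a3 n2
  have fd : S_FD := t_FD t_BASE n2 bl
  have sj : S_SJ := t_SJ t_BASE gl a3 n2 le bl fd
  have cs : S_CS := t_CS t_BASE n2 le bl sj
  have aD1 : S_AD1 := t_AD1 t_KEY
  have aD : S_AD := t_AD aD1
  have ao : S_AO := t_AO t_KEY
  have ad : S_ad := t_ad t_ONEP ao
  have dexp : S_DEXP := t_DEXP t_PROD
  have left : S_LEFT := t_LEFT dexp
  have der : S_DER := t_DER dexp left
  have mul : S_MUL := t_MUL der left t_BOOT
  exact gy1_aux vs fd cs (t_H2 aD ad t_PHI mul t_IC)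

end Pool.Agent.W660.GY
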